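import Pool.Agent.W516.KU.Defs2
import Pool.Agent.W516.DRCoef

/-!
Project KU (helper516), part UFFT: invariants of the unitary Lie algebra of a vector space with a
nondegenerate symmetric bilinear form and a skew endomorphism whose square is a scalar.
-/

set_option autoImplicit false
set_option linter.unusedSectionVars false

namespace Pool.Agent.W249.KU

open Module TensorProduct Pool.Agent.W516.K3 Pool.Agent.W516.KU

noncomputable section

/-! ### Products of bilinear forms -/

section pm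

variable {F T : Type} [Field F] [AddCommGroup T] [Module F T]
  {κ : Type} {J : Type} [Fintype J] [DecidableEq J]

lemma prod_update [DecidableEq κ] (B : J → (T →ₗ[F] T →ₗ[F] F)) (E : J × Fin 2 ≃ κ) (v : κ → T) (l₀ : J)
    (ε : Fin 2) (x : T) :
    ∏ l, B l (Function.update v (E (l₀, ε)) x (E (l, 0)))
        (Function.update v (E (l₀, ε)) x (E (l, 1)))
      = (if ε = 0 then B l₀ x (v (E (l₀, 1))) else B l₀ (v (E (l₀, 0))) x) *
        ∏ l ∈ Finset.univ.erase l₀, B l (v (E (l, 0))) (v (E (l, 1))) := by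
  rw [← Finset.mul_prod_erase Finset.univ _ (Finset.mem_univ l₀)]
  congr 1
  · by_cases h : ε = 0
    · subst h
      rw [if_pos rfl, Function.update_self, Function.update_of_ne]
      intro h2
      have h3 := E.injective h2
      simp at h3
    · have h1 : ε = 1 := by
        rcases ε with ⟨e, he⟩
        have : e ≠ 0 := fun h0 => h (by subst h0; rfl)
        have : e = 1 := by omega
        subst this
        rfl
      subst h1
      rw [if_neg (by decide), Function.update_self, Function.update_of_ne]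
      intro h2
      have h3 := E.injective h2
      simp at h3
  · refine Finset.prod_congr rfl fun l hl => ?_
    have hne : l ≠ l₀ := Finset.ne_of_mem_erase hl
    have h0 : ∀ ε' : Fin 2, E (l, ε') ≠ E (l₀, ε) := by
      intro ε' h2
      have h3 := E.injective h2
      exact hne (congrArg Prod.fst h3)
    rw [Function.update_of_ne (h0 0), Function.update_of_ne (h0 1)]

/-- the product of the values of bilinear forms on the pairs of variables -/
def pm (B : J → (T →ₗ[F] T →ₗ[F] F)) (E : J × Fin 2 ≃ κ) :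
    MultilinearMap F (fun _ : κ => T) F where
  toFun v := ∏ l, B l (v (E (l, 0))) (v (E (l, 1)))
  map_update_add' := by
    intro inst v j x y
    obtain ⟨⟨l₀, ε⟩, rfl⟩ := E.surjective j
    rw [prod_update, prod_update, prod_update, ← add_mul]
    congr 1
    split_ifs with h
    · rw [map_add, LinearMap.add_apply]
    · rw [map_add]
  map_update_smul' := by
    intro inst v j c x
    obtain ⟨⟨l₀, ε⟩, rfl⟩ := E.surjective j
    rw [prod_update, prod_update, smul_eq_mul, ← mul_assoc]
    congr 1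
    split_ifs with h
    · rw [map_smul, LinearMap.smul_apply, smul_eq_mul]
    · rw [map_smul, smul_eq_mul]

theorem pm_apply (B : J → (T →ₗ[F] T →ₗ[F] F)) (E : J × Fin 2 ≃ κ) (v : κ → T) :
    pm B E v = ∏ l, B l (v (E (l, 0))) (v (E (l, 1))) := rfl

/-- products of values of `b` and `b'` are of the required form -/
lemma pm_mem [Fintype κ] (B : Fin 2 → (T →ₗ[F] T →ₗ[F] F)) (r : J → Fin 2) (E : J × Fin 2 ≃ κ) :
    PairProdB B (pm (fun l => B (r l)) E) := by
  set e := Fintype.equivFin J with he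
  refine ⟨Fintype.card J, (Equiv.prodCongr e.symm (Equiv.refl (Fin 2))).trans E,
    fun l => r (e.symm l), ?_⟩
  intro v
  rw [pm_apply]
  rw [← Equiv.prod_comp e.symm]
  rfl

/-- expansion of a product -/
lemma pm_span [Fintype κ] (b b' : T →ₗ[F] T →ₗ[F] F) (α β : F) (E : J × Fin 2 ≃ κ) :
    pm (fun _ : J => α • b + β • b') E ∈ Submodule.span F {ψ | PairProdB ![b, b'] ψ} := by
  have h : pm (fun _ : J => α • b + β • b') E = ∑ t ∈ (Finset.univ : Finset J).powerset,
      (α ^ t.card * β ^ (Finset.univ \ t).card) •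
        pm (fun l => (![b, b'] : Fin 2 → _) (if l ∈ t then 0 else 1)) E := by
    ext v
    rw [sum_apply, pm_apply]
    simp only [LinearMap.add_apply, LinearMap.smul_apply, smul_eq_mul]
    rw [Finset.prod_add]
    refine Finset.sum_congr rfl fun t _ => ?_
    rw [smul_apply, pm_apply, smul_eq_mul, Finset.prod_mul_distrib,
      Finset.prod_mul_distrib, Finset.prod_const, Finset.prod_const]
    have h1 : ∏ l, (![b, b'] : Fin 2 → _) (if l ∈ t then 0 else 1) (v (E (l, 0))) (v (E (l, 1)))
        = (∏ l ∈ t, b (v (E (l, 0))) (v (E (l, 1)))) *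
          ∏ l ∈ Finset.univ \ t, b' (v (E (l, 0))) (v (E (l, 1))) := by
      rw [← Finset.prod_sdiff (Finset.subset_univ t), mul_comm]
      congr 1
      · refine Finset.prod_congr rfl fun l hl => ?_
        rw [if_pos hl]; rfl
      · refine Finset.prod_congr rfl fun l hl => ?_
        rw [if_neg (Finset.mem_sdiff.mp hl).2]; rfl
    rw [h1]
    ring
  rw [h]
  refine Submodule.sum_mem _ fun t _ => Submodule.smul_mem _ _ (Submodule.subset_span ?_)
  exact pm_mem ![b, b'] _ E

end pm

/-! ### The split case -/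

section split

variable {F T : Type} [Field F] [CharZero F] [AddCommGroup T] [Module F T] [FiniteDimensional F T]
  (b : T →ₗ[F] T →ₗ[F] F) (δ : Module.End F T) (i : F)

/-- the eigenspace -/
def Wp : Submodule F T := LinearMap.ker (δ - i • (1 : Module.End F T))

variable {δ i}

lemma mem_Wp {v : T} : v ∈ Wp δ i ↔ δ v = i • v := by
  unfold Wp
  rw [LinearMap.mem_ker, LinearMap.sub_apply, LinearMap.smul_apply, sub_eq_zero]
  rfl

variable (δ i)

/-- the projection -/
def pip : Module.End F T := (2⁻¹ : F) • (1 + i⁻¹ • δ)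

def pim : Module.End F T := (2⁻¹ : F) • (1 - i⁻¹ • δ)

variable {δ i}

lemma pip_apply (v : T) : pip δ i v = (2⁻¹ : F) • (v + i⁻¹ • δ v) := rfl
lemma pim_apply (v : T) : pim δ i v = (2⁻¹ : F) • (v - i⁻¹ • δ v) := rfl

lemma pip_add_pim (v : T) : pip δ i v + pim δ i v = v := by
  rw [pip_apply, pim_apply, ← smul_add, add_add_sub_cancel, ← two_smul F v, smul_smul,
    inv_mul_cancel₀ two_ne_zero, one_smul]

lemma dd (hδ : δ * δ = (i * i) • (1 : Module.End F T)) (v : T) : δ (δ v) = (i * i) • v := by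
  have := LinearMap.congr_fun hδ v
  exact this

lemma d_pip (hi : i ≠ 0) (hδ : δ * δ = (i * i) • (1 : Module.End F T)) (v : T) :
    δ (pip δ i v) = i • pip δ i v := by
  rw [pip_apply, map_smul, map_add, map_smul, dd hδ, smul_comm i (2⁻¹ : F)]
  congr 1
  rw [smul_add, smul_smul, smul_smul, mul_inv_cancel₀ hi, one_smul, ← mul_assoc,
    inv_mul_cancel₀ hi, one_mul, add_comm]

/-- the projection onto the eigenspace -/
def P (hi : i ≠ 0) (hδ : δ * δ = (i * i) • (1 : Module.End F T)) : T →ₗ[F] Wp δ i :=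
  LinearMap.codRestrict (Wp δ i) (pip δ i) fun v => mem_Wp.mpr (d_pip hi hδ v)

variable (hi : i ≠ 0) (hδ : δ * δ = (i * i) • (1 : Module.End F T))

lemma P_coe (v : T) : (P hi hδ v : T) = pip δ i v := rfl

lemma P_mem (w : Wp δ i) : P hi hδ (w : T) = w := by
  apply Subtype.ext
  rw [P_coe, pip_apply, mem_Wp.mp w.2, smul_smul, inv_mul_cancel₀ hi, one_smul, ← two_smul F,
    smul_smul, inv_mul_cancel₀ two_ne_zero, one_smul]

lemma P_d (v : T) : P hi hδ (δ v) = i • P hi hδ v := by
  apply Subtype.ext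
  rw [P_coe, Submodule.coe_smul, P_coe, ← d_pip hi hδ, pip_apply, pip_apply, map_smul, map_add,
    map_smul]

lemma P_neg {v : T} (hv : δ v = -(i • v)) : P hi hδ v = 0 := by
  apply Subtype.ext
  rw [P_coe, pip_apply, hv, smul_neg, smul_smul, inv_mul_cancel₀ hi, one_smul, add_neg_cancel,
    smul_zero]
  rfl

variable (hsym : ∀ u v, b u v = b v u) (hnd : ∀ u, (∀ v, b u v = 0) → u = 0)
  (hsk : ∀ u v, b (δ u) v = -b u (δ v))

include hsk in
lemma b_pip (u v : T) : b (pip δ i u) v = b u (pim δ i v) := by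
  rw [pip_apply, pim_apply, map_smul, map_add, map_smul, LinearMap.smul_apply,
    LinearMap.add_apply, LinearMap.smul_apply, hsk, map_smul, map_sub, map_smul]
  simp only [smul_eq_mul]
  ring

/-- the restriction of `b t` to the eigenspace -/
def rho (δ : Module.End F T) (i : F) : T →ₗ[F] Module.Dual F (Wp δ i) :=
  (Wp δ i).subtype.dualMap ∘ₗ b

lemma rho_apply (t : T) (w : Wp δ i) : rho b δ i t w = b t w := rfl

/-- `T` is isomorphic to its dual -/
def Be (hnd : ∀ u, (∀ v, b u v = 0) → u = 0) : T ≃ₗ[F] Module.Dual F T :=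
  LinearMap.linearEquivOfInjective b (by
    rw [← LinearMap.ker_eq_bot, LinearMap.ker_eq_bot']
    intro u hu
    exact hnd u fun v => by rw [hu]; rfl) (Subspace.dual_finrank_eq).symm

lemma Be_apply (hnd : ∀ u, (∀ v, b u v = 0) → u = 0) (u : T) : Be b hnd u = b u := rfl

end split

end

end Pool.Agent.W249.KU

namespace Pool.Agent.W249.KU

open Module TensorProduct Pool.Agent.W516.K3 Pool.Agent.W516.KU

noncomputable section

section split2

variable {F T : Type} [Field F] [CharZero F] [AddCommGroup T] [Module F T] [FiniteDimensional F T]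
  (b : T →ₗ[F] T →ₗ[F] F) {δ : Module.End F T} {i : F}
  (hi : i ≠ 0) (hδ : δ * δ = (i * i) • (1 : Module.End F T))
  (hnd : ∀ u, (∀ v, b u v = 0) → u = 0)

/-- the embedding of the dual of the eigenspace -/
def theta : Module.Dual F (Wp δ i) →ₗ[F] T :=
  (Be b hnd).symm.toLinearMap ∘ₗ (P hi hδ).dualMap

lemma b_theta (ξ : Module.Dual F (Wp δ i)) (v : T) :
    b (theta b hi hδ hnd ξ) v = ξ (P hi hδ v) := by
  have h := LinearEquiv.apply_symm_apply (Be b hnd) ((P hi hδ).dualMap ξ)
  exact LinearMap.congr_fun h v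

lemma ext_b {u u' : T} (h : ∀ v, b u v = b u' v) (hnd : ∀ u, (∀ v, b u v = 0) → u = 0) :
    u = u' := by
  rw [← sub_eq_zero]
  apply hnd
  intro v
  rw [map_sub, LinearMap.sub_apply, h, sub_self]

variable (hsk : ∀ u v, b (δ u) v = -b u (δ v))

include hsk in
lemma b_pim (u v : T) : b (pim δ i u) v = b u (pip δ i v) := by
  rw [pip_apply, pim_apply, map_smul, map_sub, map_smul, LinearMap.smul_apply,
    LinearMap.sub_apply, LinearMap.smul_apply, hsk, map_smul, map_add, map_smul]
  simp only [smul_eq_mul]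
  ring

include hsk in
lemma theta_rho (t : T) : theta b hi hδ hnd (rho b δ i t) = pim δ i t := by
  refine ext_b b (fun v => ?_) hnd
  rw [b_theta, rho_apply, P_coe, b_pim b hsk]

include hsk in
lemma d_theta (ξ : Module.Dual F (Wp δ i)) :
    δ (theta b hi hδ hnd ξ) = -(i • theta b hi hδ hnd ξ) := by
  refine ext_b b (fun v => ?_) hnd
  rw [hsk, b_theta, P_d, map_smul, map_neg, map_smul, LinearMap.neg_apply, LinearMap.smul_apply,
    b_theta]

include hsk in
lemma P_theta (ξ : Module.Dual F (Wp δ i)) : P hi hδ (theta b hi hδ hnd ξ) = 0 :=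
  P_neg hi hδ (d_theta b hi hδ hnd hsk ξ)

lemma rho_theta (ξ : Module.Dual F (Wp δ i)) : rho b δ i (theta b hi hδ hnd ξ) = ξ := by
  ext w
  rw [rho_apply, b_theta, P_mem]

include hi hsk in
lemma rho_mem (w : Wp δ i) : rho b δ i (w : T) = 0 := by
  ext w'
  rw [rho_apply, LinearMap.zero_apply]
  have h := hsk (w : T) (w' : T)
  rw [mem_Wp.mp w.2, mem_Wp.mp w'.2, map_smul, map_smul, LinearMap.smul_apply, smul_eq_mul] at h
  have h2 : (2 : F) * (i * b w w') = 0 := by linear_combination h
  rcases mul_eq_zero.mp h2 with h3 | h3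
  · exact absurd h3 two_ne_zero
  · rcases mul_eq_zero.mp h3 with h4 | h4
    · exact absurd h4 hi
    · exact h4

include hsk in
lemma rho_d (t : T) : rho b δ i (δ t) = -(i • rho b δ i t) := by
  ext w
  rw [rho_apply, hsk, mem_Wp.mp w.2, map_smul, LinearMap.neg_apply, LinearMap.smul_apply,
    rho_apply]

/-- the extension of an endomorphism of the eigenspace -/
def XX (x : Module.End F (Wp δ i)) : Module.End F T :=
  (Wp δ i).subtype ∘ₗ x ∘ₗ P hi hδ - theta b hi hδ hnd ∘ₗ x.dualMap ∘ₗ rho b δ i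

lemma XX_apply (x : Module.End F (Wp δ i)) (t : T) :
    XX b hi hδ hnd x t = (x (P hi hδ t) : T) - theta b hi hδ hnd (rho b δ i t ∘ₗ x) := rfl

lemma XX_skew (hsym : ∀ u v, b u v = b v u) (x : Module.End F (Wp δ i)) (u v : T) :
    b (XX b hi hδ hnd x u) v + b u (XX b hi hδ hnd x v) = 0 := by
  rw [XX_apply, XX_apply, map_sub, LinearMap.sub_apply, map_sub, b_theta,
    hsym u (theta b hi hδ hnd (rho b δ i v ∘ₗ x)), b_theta, LinearMap.comp_apply,
    LinearMap.comp_apply, rho_apply, rho_apply, hsym v _]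
  ring

include hsk in
lemma XX_comm (x : Module.End F (Wp δ i)) : XX b hi hδ hnd x * δ = δ * XX b hi hδ hnd x := by
  ext t
  change XX b hi hδ hnd x (δ t) = δ (XX b hi hδ hnd x t)
  rw [XX_apply, XX_apply, P_d, rho_d b hsk, map_sub, d_theta b hi hδ hnd hsk,
    mem_Wp.mp (x (P hi hδ t)).2, map_smul, Submodule.coe_smul]
  congr 1
  have h : (-(i • rho b δ i t)) ∘ₗ x = -(i • (rho b δ i t ∘ₗ x)) := rfl
  rw [h, map_neg, map_smul]

include hsk in
lemma XX_mem (x : Module.End F (Wp δ i)) (w : Wp δ i) :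
    XX b hi hδ hnd x (w : T) = (x w : T) := by
  rw [XX_apply, P_mem, rho_mem b hi hsk, LinearMap.zero_comp, map_zero, sub_zero]

include hsk in
lemma XX_theta (x : Module.End F (Wp δ i)) (ξ : Module.Dual F (Wp δ i)) :
    XX b hi hδ hnd x (theta b hi hδ hnd ξ) = -theta b hi hδ hnd (ξ ∘ₗ x) := by
  rw [XX_apply, P_theta b hi hδ hnd hsk, rho_theta, map_zero, Submodule.coe_zero, zero_sub]

variable {κ : Type} [Fintype κ] [DecidableEq κ] (φ : MultilinearMap F (fun _ : κ => T) F)

/-- the component of the form -/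
def Psi (s : Finset κ) : MultilinearMap F (fun _ : {j // j ∈ s} => Wp δ i)
    (MultilinearMap F (fun _ : {j // j ∉ s} => Module.Dual F (Wp δ i)) F) :=
  (MultilinearMap.compLinearMapₗ (R := F) (M₂ := F)
    (fun _ : {j // j ∉ s} => theta b hi hδ hnd)).compMultilinearMap
    ((MultilinearMap.currySum (N := fun _ => T)
      (φ.domDomCongr (Equiv.sumCompl (fun j => j ∈ s)).symm)).compLinearMap
      (fun _ : {j // j ∈ s} => (Wp δ i).subtype))

lemma Psi_apply (s : Finset κ) (w : {j // j ∈ s} → Wp δ i)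
    (ξ : {j // j ∉ s} → Module.Dual F (Wp δ i)) :
    Psi b hi hδ hnd φ s w ξ = φ ((Sum.elim (fun j => (w j : T))
      (fun l => theta b hi hδ hnd (ξ l))) ∘ (Equiv.sumCompl (fun j => j ∈ s)).symm) := rfl

include hsk in
lemma Psi_inv (s : Finset κ) (x : Module.End F (Wp δ i))
    (hx : KillsM (XX b hi hδ hnd x) φ) (w : {j // j ∈ s} → Wp δ i)
    (ξ : {j // j ∉ s} → Module.Dual F (Wp δ i)) :
    ∑ j, Psi b hi hδ hnd φ s (Function.update w j (x (w j))) ξ -
      ∑ l, Psi b hi hδ hnd φ s w (Function.update ξ l ((ξ l) ∘ₗ x)) = 0 := by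
  set e := Equiv.sumCompl (fun j => j ∈ s) with he
  set A : {j // j ∈ s} ⊕ {j // j ∉ s} → T := Sum.elim (fun j => (w j : T))
      (fun l => theta b hi hδ hnd (ξ l)) with hA
  have h := hx (A ∘ e.symm)
  rw [← Equiv.sum_comp e, Fintype.sum_sum_type] at h
  have h1 : ∀ (a : {j // j ∈ s} ⊕ {j // j ∉ s}) (z : T),
      Function.update (A ∘ e.symm) (e a) z = (Function.update A a z) ∘ e.symm := by
    intro a z
    rw [Function.update_comp_equiv, Equiv.symm_symm]
  simp only [h1, Function.comp_apply, Equiv.symm_apply_apply] at h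
  rw [← h, sub_eq_add_neg]
  congr 1
  · refine Finset.sum_congr rfl fun j _ => ?_
    rw [Psi_apply, hA, Sum.update_elim_inl, Sum.elim_inl, XX_mem b hi hδ hnd hsk]
    congr 3
    funext j'
    by_cases hj : j' = j
    · subst hj
      rw [Function.update_self, Function.update_self]
    · rw [Function.update_of_ne hj, Function.update_of_ne hj]
  · rw [← Finset.sum_neg_distrib]
    refine Finset.sum_congr rfl fun l _ => ?_
    rw [hA, Sum.update_elim_inr, Sum.elim_inr, XX_theta b hi hδ hnd hsk]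
    have h2 : (Sum.elim (fun j => (w j : T)) (Function.update
        (fun l => theta b hi hδ hnd (ξ l)) l (-theta b hi hδ hnd ((ξ l) ∘ₗ x)))) ∘ e.symm =
        Function.update (A ∘ e.symm) (e (Sum.inr l)) (-theta b hi hδ hnd ((ξ l) ∘ₗ x)) := by
      rw [h1, hA, Sum.update_elim_inr]
    rw [h2, ← neg_one_smul F (theta b hi hδ hnd ((ξ l) ∘ₗ x)), MultilinearMap.map_update_smul,
      neg_one_smul, h1, hA, Sum.update_elim_inr, Psi_apply]
    congr 4
    funext j'
    by_cases hj : j' = l
    · subst hj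
      rw [Function.update_self, Function.update_self]
    · rw [Function.update_of_ne hj, Function.update_of_ne hj]

/-- the pairing of the variables -/
def pairE {s : Finset κ} (e : {j // j ∈ s} ≃ {j // j ∉ s}) : {j // j ∈ s} × Fin 2 ≃ κ :=
  ((Equiv.prodComm _ _).trans (finTwoEquiv.prodCongr (Equiv.refl _))).trans
    ((Equiv.boolProdEquivSum _).trans
      ((Equiv.sumCongr (Equiv.refl _) e).trans (Equiv.sumCompl (fun j => j ∈ s))))

lemma pairE_zero {s : Finset κ} (e : {j // j ∈ s} ≃ {j // j ∉ s}) (j : {j // j ∈ s}) :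
    pairE e (j, 0) = j := rfl

lemma pairE_one {s : Finset κ} (e : {j // j ∈ s} ≃ {j // j ∉ s}) (j : {j // j ∈ s}) :
    pairE e (j, 1) = e j := rfl

lemma span_case (hsym : ∀ u v, b u v = b v u) (s : Finset κ)
    (Ψ : MultilinearMap F (fun _ : {j // j ∈ s} => Wp δ i)
      (MultilinearMap F (fun _ : {j // j ∉ s} => Module.Dual F (Wp δ i)) F))
    (hΨ : Ψ ∈ Submodule.span F {ψ : MultilinearMap F (fun _ : {j // j ∈ s} => Wp δ i)
      (MultilinearMap F (fun _ : {j // j ∉ s} => Module.Dual F (Wp δ i)) F) |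
        ∃ e : {j // j ∈ s} ≃ {j // j ∉ s}, ∀ v w, ψ v w = ∏ j, w (e j) (v j)}) :
    ∃ χ ∈ Submodule.span F {ψ | PairProdB ![b, b ∘ₗ δ] ψ},
      ∀ v : κ → T, χ v = Ψ (fun j => P hi hδ (v j)) (fun l => rho b δ i (v l)) := by
  induction hΨ using Submodule.span_induction with
  | mem ψ h =>
    obtain ⟨e, he⟩ := h
    refine ⟨_, pm_span b (b ∘ₗ δ) 2⁻¹ (2⁻¹ * i⁻¹) (pairE e), fun v => ?_⟩
    rw [pm_apply, he]
    refine Finset.prod_congr rfl fun j _ => ?_
    rw [pairE_zero, pairE_one, rho_apply, P_coe, hsym (v (e j)) _, pip_apply, map_smul, map_add,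
      map_smul]
    simp only [LinearMap.add_apply, LinearMap.smul_apply, LinearMap.comp_apply, smul_eq_mul]
    ring
  | zero => exact ⟨0, Submodule.zero_mem _, fun v => rfl⟩
  | add x y _ _ hx hy =>
    obtain ⟨χ, h1, h2⟩ := hx
    obtain ⟨χ', h1', h2'⟩ := hy
    exact ⟨χ + χ', Submodule.add_mem _ h1 h1', fun v => by
      rw [add_apply, h2, h2']; rfl⟩
  | smul a x _ hx =>
    obtain ⟨χ, h1, h2⟩ := hx
    exact ⟨a • χ, Submodule.smul_mem _ _ h1, fun v => by
      rw [smul_apply, h2]; rfl⟩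

include hi hδ hnd hsk in
theorem split_case (H : S_GLF) (hsym : ∀ u v, b u v = b v u)
    (hφ : ∀ x : Module.End F T, (∀ u v, b (x u) v + b u (x v) = 0) → x * δ = δ * x →
      KillsM x φ) :
    φ ∈ Submodule.span F {ψ | PairProdB ![b, b ∘ₗ δ] ψ} := by
  have h1 : ∀ s : Finset κ, ∃ χ ∈ Submodule.span F {ψ | PairProdB ![b, b ∘ₗ δ] ψ},
      ∀ v : κ → T, χ v = φ (s.piecewise (fun j => pip δ i (v j)) (fun j => pim δ i (v j))) := by
    intro s
    have h2 := H F (Wp δ i) {j // j ∈ s} {j // j ∉ s} (Psi b hi hδ hnd φ s)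
      (fun x v w => Psi_inv b hi hδ hnd hsk φ s x
        (hφ _ (XX_skew b hi hδ hnd hsym x) (XX_comm b hi hδ hnd hsk x)) v w)
    obtain ⟨χ, h3, h4⟩ := span_case b hi hδ hsym s _ h2
    refine ⟨χ, h3, fun v => ?_⟩
    rw [h4, Psi_apply]
    congr 1
    funext j
    by_cases hj : j ∈ s
    · rw [Finset.piecewise_eq_of_mem _ _ _ hj, Function.comp_apply,
        Equiv.sumCompl_symm_apply_of_pos hj, Sum.elim_inl, P_coe]
    · rw [Finset.piecewise_eq_of_notMem _ _ _ hj, Function.comp_apply,
        Equiv.sumCompl_symm_apply_of_neg hj, Sum.elim_inr, theta_rho b hi hδ hnd hsk]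
  choose χ h3 h4 using h1
  have h5 : φ = ∑ s, χ s := by
    ext v
    rw [sum_apply]
    have h6 : v = (fun j => pip δ i (v j)) + (fun j => pim δ i (v j)) := by
      funext j
      rw [Pi.add_apply, pip_add_pim]
    conv_lhs => rw [h6, MultilinearMap.map_add_univ]
    exact Finset.sum_congr rfl fun s _ => (h4 s v).symm
  rw [h5]
  exact Submodule.sum_mem _ fun s _ => h3 s

end split2

end

end Pool.Agent.W249.KU

namespace Pool.Agent.W249.KU

open Module TensorProduct Pool.Agent.H204R3.SP Pool.Agent.H204R3.GP Pool.Agent.W516.DR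
  Pool.Agent.W516.K3 Pool.Agent.W516.KU

noncomputable section

theorem T_UFFT : Pool.Agent.W516.KU.S_GLF → Pool.Agent.W516.KU.S_UFFT := by
  intro H F T _ _ _ _ _ b δ d hsym hnd hd hδ hsk κ _ _ φ hφ
  let L := AlgebraicClosure F
  have : CharZero L := charZero_of_injective_algebraMap (algebraMap F L).injective
  obtain ⟨i, hi⟩ := IsAlgClosed.exists_eq_mul_self (algebraMap F L (-d))
  let bs := Module.finBasis F T
  let b' : L ⊗[F] T →ₗ[L] L ⊗[F] T →ₗ[L] L := LinearMap.BilinForm.baseChange L b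
  have hbb : ∀ u v : T, b' ((1 : L) ⊗ₜ[F] u) ((1 : L) ⊗ₜ[F] v) = algebraMap F L (b u v) := by
    intro u v
    have h := LinearMap.BilinForm.baseChange_tmul (A := L) b (1 : L) u 1 v
    rw [show b' = LinearMap.BilinForm.baseChange L b from rfl, h, mul_one,
      Algebra.algebraMap_eq_smul_one]
  have hi0 : i ≠ 0 := by
    intro h0
    rw [h0, mul_zero, map_neg, neg_eq_zero] at hi
    exact hd ((map_eq_zero (algebraMap F L)).mp hi)
  let δ' : Module.End L (L ⊗[F] T) := δ.baseChange L
  have hδ' : δ' * δ' = (i * i) • (1 : Module.End L (L ⊗[F] T)) := by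
    refine TensorProduct.AlgebraTensorModule.ext fun a u => ?_
    change δ' (δ' (a ⊗ₜ[F] u)) = (i * i) • (a ⊗ₜ[F] u)
    rw [show δ' = δ.baseChange L from rfl, LinearMap.baseChange_tmul, LinearMap.baseChange_tmul]
    have h := LinearMap.congr_fun hδ u
    have h2 : δ (δ u) = (-d) • u := by
      rw [neg_smul]
      exact h
    rw [h2, ← hi, tmul_smul, algebraMap_smul]
  have hnd' : ∀ u, (∀ v, b' u v = 0) → u = 0 := fun u hu => nondeg_ext b b' hbb hnd u hu
  have hsk' : ∀ u v, b' (δ' u) v = -b' u (δ' v) := by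
    have h1 : b' ∘ₗ δ' = -(b'.compl₂ δ') := by
      apply bilin_ext
      intro u v
      rw [LinearMap.comp_apply, LinearMap.neg_apply, LinearMap.neg_apply, LinearMap.compl₂_apply,
        show δ' = δ.baseChange L from rfl, LinearMap.baseChange_tmul, LinearMap.baseChange_tmul,
        hbb, hbb, hsk, map_neg]
    intro u v
    exact LinearMap.congr_fun (LinearMap.congr_fun h1 u) v
  have hsym' : ∀ u v, b' u v = b' v u := by
    have h1 : b' = b'.flip := by
      apply bilin_ext
      intro u v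
      rw [LinearMap.flip_apply, hbb, hbb, hsym]
    intro u v
    exact LinearMap.congr_fun (LinearMap.congr_fun h1 u) v
  have hkill : ∀ Y : Module.End L (L ⊗[F] T), (∀ u v, b' (Y u) v + b' u (Y v) = 0) →
      Y * δ' = δ' * Y → KillsM Y (bcm (Ω := L) bs φ) := by
    intro Y hY hc
    refine (kills_bcm_iff bs φ Y).2 fun lam => ?_
    refine hφ _ ?_ ?_
    · intro u v
      rw [cmpE_apply, cmpE_apply, ← lam_omega b b' hbb, ← lam_omega' b b' hbb, ← map_add, hY,
        map_zero]
    · exact comm_cmp hc lam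
  have hmain := split_case b' hi0 hδ' hnd' hsk' (bcm (Ω := L) bs φ) H hsym' hkill
  have key : ∀ ψ ∈ Submodule.span L {ψ : MultilinearMap L (fun _ : κ => L ⊗[F] T) L |
      PairProdB ![b', b' ∘ₗ δ'] ψ}, ∀ lam : L →ₗ[F] F,
      ∃ χ ∈ Submodule.span F {ψ : MultilinearMap F (fun _ : κ => T) F |
        PairProdB ![b, b ∘ₗ δ] ψ}, ∀ v : κ → T, χ v = lam (ψ (fun l => (1 : L) ⊗ₜ[F] v l)) := by
    intro ψ hψ
    induction hψ using Submodule.span_induction with
    | mem ψ h =>
      obtain ⟨m, e, s, h⟩ := h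
      intro lam
      refine ⟨(lam 1) • pm (fun l => (![b, b ∘ₗ δ] : Fin 2 → _) (s l)) e,
        Submodule.smul_mem _ _ (Submodule.subset_span (pm_mem ![b, b ∘ₗ δ] s e)), fun v => ?_⟩
      have h1 : ∀ (r : Fin 2) (u w : T), (![b', b' ∘ₗ δ'] : Fin 2 → _) r ((1 : L) ⊗ₜ[F] u)
          ((1 : L) ⊗ₜ[F] w) = algebraMap F L ((![b, b ∘ₗ δ] : Fin 2 → _) r u w) := by
        intro r u w
        fin_cases r
        · exact hbb u w
        · change b' (δ' ((1 : L) ⊗ₜ[F] u)) ((1 : L) ⊗ₜ[F] w) = algebraMap F L (b (δ u) w)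
          rw [show δ' = δ.baseChange L from rfl, LinearMap.baseChange_tmul, hbb]
      rw [h, smul_apply, pm_apply]
      simp only [h1]
      rw [← map_prod, Algebra.algebraMap_eq_smul_one, map_smul, smul_eq_mul, smul_eq_mul,
        mul_comm]
    | zero => exact fun lam => ⟨0, Submodule.zero_mem _, fun v => (map_zero lam).symm⟩
    | add x y _ _ hx hy =>
      intro lam
      obtain ⟨χ, h1, h2⟩ := hx lam
      obtain ⟨χ', h1', h2'⟩ := hy lam
      exact ⟨χ + χ', Submodule.add_mem _ h1 h1', fun v => by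
        rw [add_apply, h2, h2', add_apply, map_add]⟩
    | smul a x _ hx =>
      intro lam
      obtain ⟨χ, h1, h2⟩ := hx (lam ∘ₗ LinearMap.mulLeft F a)
      exact ⟨χ, h1, fun v => by
        rw [h2, smul_apply]; rfl⟩
  obtain ⟨π, hπ⟩ := LinearMap.exists_leftInverse_of_injective
    ((Algebra.linearMap F L)) (LinearMap.ker_eq_bot.2 (algebraMap F L).injective)
  obtain ⟨χ, h1, h2⟩ := key _ hmain π
  have h3 : χ = φ := by
    ext v
    rw [h2, bcm_one]
    exact LinearMap.congr_fun hπ (φ v)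
  rwa [h3] at h1

end

end Pool.Agent.W249.KU

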